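import Mathlib
import Pool.Agent.Y285.LL.ConfV

/-!
# One weight for all exponents, and all regular weights

There is a bounded simply connected domain with nonempty inner boundary on which the polynomials are
complete in `L^p_a(Ω, W(1-|φ|) dx dy)` for all weight profiles `W` with `W(t)/t^2` nondecreasing and
`W(t) = O(t^(M+2))`, `M ≥ 8 (p - 1)`, whether the log-log integral diverges or not. In particular
one weight profile with convergent log-log integral works for all `1 ≤ p < ∞` simultaneously.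
-/

set_option autoImplicit false

open MeasureTheory Set Filter Topology
open scoped ENNReal Polynomial

namespace Pool.Agent.Results.MP_d321f7_an.OneWeightAllExponents

/-- The inner boundary of `Ω`: the boundary points lying in the interior of the closure. -/
def innerBoundary (Ω : Set ℂ) : Set ℂ := frontier Ω ∩ interior (closure Ω)

/-- `φ` is a conformal map of `Ω` onto the open unit disc. -/
def ConformalOntoDisc (Ω : Set ℂ) (φ : ℂ → ℂ) : Prop :=
  DifferentiableOn ℂ φ Ω ∧ BijOn φ Ω (Metric.ball 0 1)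

/-- `W : (0,1] → (0,∞)` is bounded and `W(t) ↓ 0` as `t ↓ 0`. -/
structure WeightProfile (W : ℝ → ℝ) : Prop where
  pos : ∀ t ∈ Ioc (0 : ℝ) 1, 0 < W t
  bounded : ∃ C, ∀ t ∈ Ioc (0 : ℝ) 1, W t ≤ C
  mono : MonotoneOn W (Ioc (0 : ℝ) 1)
  tendsto : Tendsto W (𝓝[>] 0) (𝓝 0)

/-- `∫_0 log log (1 / W(t)) dt < +∞`. -/
def LogLogConverges (W : ℝ → ℝ) : Prop :=
  ∃ t₀ : ℝ, 0 < t₀ ∧ IntegrableOn (fun t => Real.log (Real.log (1 / W t))) (Ioc 0 t₀)

/-- The polynomials are complete in `L^p_a(Ω, w dx dy)`: every analytic `f` on `Ω` with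
`∫_Ω |f|^p w < ∞` is a limit of polynomials in `L^p(Ω, w dx dy)`. -/
def PolynomialsComplete (p : ℝ) (Ω : Set ℂ) (w : ℂ → ℝ) : Prop :=
  ∀ f : ℂ → ℂ, DifferentiableOn ℂ f Ω →
    ∫⁻ z in Ω, ‖f z‖ₑ ^ p * ENNReal.ofReal (w z) < ∞ →
    ∀ ε : ℝ≥0∞, 0 < ε → ∃ P : ℂ[X],
      ∫⁻ z in Ω, ‖f z - P.eval z‖ₑ ^ p * ENNReal.ofReal (w z) < ε

/-- the weight profile `exp (-2/t)` -/
noncomputable def W₀ (t : ℝ) : ℝ := Real.exp (-(2 / t))

theorem weightProfile_W₀ : WeightProfile W₀ := by
  refine ⟨fun t _ => Real.exp_pos _, ⟨1, fun t ht => ?_⟩, ?_, ?_⟩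
  · rw [W₀, Real.exp_le_one_iff]
    have := ht.1
    have : 0 < 2 / t := by positivity
    linarith
  · intro s hs t ht hst
    rw [W₀, W₀, Real.exp_le_exp, neg_le_neg_iff]
    exact div_le_div_of_nonneg_left (by norm_num) hs.1 hst
  · unfold W₀
    apply Real.tendsto_exp_atBot.comp
    apply tendsto_neg_atTop_atBot.comp
    have : Tendsto (fun t : ℝ => 2 * t⁻¹) (𝓝[>] 0) atTop :=
      tendsto_inv_nhdsGT_zero.const_mul_atTop (by norm_num)
    exact this.congr fun t => by rw [div_eq_mul_inv]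

theorem logLogConverges_W₀ : LogLogConverges W₀ := by
  refine ⟨1, one_pos, ?_⟩
  have hlog : IntegrableOn (fun t : ℝ => Real.log 2 - Real.log t) (Ioc 0 1) := by
    have h := (intervalIntegral.intervalIntegrable_log' (a := 0) (b := 1))
    rw [intervalIntegrable_iff_integrableOn_Ioc_of_le (by norm_num)] at h
    exact (integrableOn_const (by simp)).sub h
  refine hlog.congr_fun ?_ measurableSet_Ioc
  intro t ht
  have ht0 := ht.1
  simp only [W₀]
  rw [one_div, Real.log_inv, Real.log_exp, neg_neg, Real.log_div (by norm_num) ht0.ne']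

theorem monotoneOn_W₀ : MonotoneOn (fun t => W₀ t / t ^ 2) (Ioc (0 : ℝ) 1) := by
  intro s hs t ht hst
  have hs0 := hs.1
  have ht0 := ht.1
  simp only [W₀]
  have h1 : t / s ≤ Real.exp (1 / s - 1 / t) := by
    have h2 := Real.add_one_le_exp (1 / s - 1 / t)
    refine le_trans ?_ h2
    have e : (1 / s - 1 / t) + 1 - t / s = (1 - t) * (t - s) / (s * t) := by
      field_simp
      ring
    have h3 : 0 ≤ (1 - t) * (t - s) / (s * t) := by
      apply div_nonneg _ (by positivity)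
      exact mul_nonneg (by linarith [ht.2]) (by linarith)
    rw [← e] at h3
    linarith
  have h4 : (t / s) ^ 2 ≤ Real.exp (1 / s - 1 / t) ^ 2 := pow_le_pow_left₀ (by positivity) h1 2
  rw [div_le_div_iff₀ (by positivity) (by positivity)]
  have h5 : Real.exp (1 / s - 1 / t) ^ 2 * Real.exp (-(2 / s)) = Real.exp (-(2 / t)) := by
    rw [← Real.exp_nat_mul, ← Real.exp_add]
    congr 1
    push_cast
    ring
  calc Real.exp (-(2 / s)) * t ^ 2 = (t / s) ^ 2 * Real.exp (-(2 / s)) * s ^ 2 := by field_simp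
    _ ≤ Real.exp (1 / s - 1 / t) ^ 2 * Real.exp (-(2 / s)) * s ^ 2 := by gcongr
    _ = Real.exp (-(2 / t)) * s ^ 2 := by rw [h5]

theorem W₀_le (M : ℕ) : ∀ t ∈ Ioc (0 : ℝ) 1, W₀ t ≤ ((M + 2).factorial : ℝ) * t ^ (M + 2) := by
  intro t ht
  have ht0 := ht.1
  have h1 := Real.pow_div_factorial_le_exp (2 / t) (by positivity) (M + 2)
  have hf : (0 : ℝ) < ((M + 2).factorial : ℝ) := by exact_mod_cast Nat.factorial_pos _
  have h2 : (1 / t) ^ (M + 2) ≤ (2 / t) ^ (M + 2) := by
    apply pow_le_pow_left₀ (by positivity)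
    apply div_le_div_of_nonneg_right (by norm_num) ht0.le
  rw [W₀, Real.exp_neg, inv_le_comm₀ (Real.exp_pos _) (by positivity)]
  calc (((M + 2).factorial : ℝ) * t ^ (M + 2))⁻¹ = (1 / t) ^ (M + 2) / ((M + 2).factorial : ℝ) := by
        rw [div_pow, one_pow, mul_inv]
        field_simp
    _ ≤ (2 / t) ^ (M + 2) / ((M + 2).factorial : ℝ) := by gcongr
    _ ≤ _ := h1

/-- **Divergence of the log-log integral is not necessary for completeness: all regular weights, and
one weight for all exponents.** There is a bounded simply connected domain `Ω` with nonempty inner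
boundary such that

(A) for every weight profile `W` with `W(t)/t^2` nondecreasing on `(0,1]`, every `1 ≤ p < ∞` with
`W(t) ≤ C t^(M+2)` for some natural number `M ≥ 8 (p - 1)`, and every conformal map `φ` of `Ω` onto
the disc (such maps exist), the polynomials are complete in `L^p_a(Ω, W(1-|φ|) dx dy)`;

(B) there is one weight profile `W` with `∫_0 log log (1/W) dt < ∞` such that for every
`1 ≤ p < ∞` and every conformal map `φ` of `Ω` onto the disc the polynomials are complete in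
`L^p_a(Ω, W(1-|φ|) dx dy)`. -/
theorem result :
    ∃ Ω : Set ℂ,
      IsOpen Ω ∧ Bornology.IsBounded Ω ∧ IsSimplyConnected Ω ∧ (innerBoundary Ω).Nonempty ∧
      (∃ φ, ConformalOntoDisc Ω φ) ∧
      (∀ W : ℝ → ℝ, WeightProfile W → MonotoneOn (fun t => W t / t ^ 2) (Ioc (0 : ℝ) 1) →
        ∀ p : ℝ, 1 ≤ p →
        (∃ (M : ℕ) (C : ℝ), 8 * (p - 1) ≤ M ∧ ∀ t ∈ Ioc (0 : ℝ) 1, W t ≤ C * t ^ (M + 2)) →
        ∀ φ, ConformalOntoDisc Ω φ → PolynomialsComplete p Ω (fun z => W (1 - ‖φ z‖))) ∧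
      ∃ W : ℝ → ℝ, WeightProfile W ∧ LogLogConverges W ∧
        ∀ p : ℝ, 1 ≤ p → ∀ φ, ConformalOntoDisc Ω φ →
          PolynomialsComplete p Ω (fun z => W (1 - ‖φ z‖)) := by
  refine ⟨Helper523.LL.Om, Helper523.LL.isOpen_Om,
    Metric.isBounded_ball.subset Helper523.LL.Om_sub, Helper523.LL.simply_connected_Om,
    Helper523.LL.inner_nonempty, ?_, ?_, W₀, weightProfile_W₀, logLogConverges_W₀, ?_⟩
  · obtain ⟨φ, h1, h2⟩ := Helper523.LL.exists_conf
    exact ⟨φ, h1, h2⟩
  · intro W hW hWm p hp ⟨M, C, hM, hC⟩ φ hφ f hf hfin ε hε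
    exact Y285.LL.dense_confV hφ.1 hφ.2 hW.pos hWm M hp hM hC hf hfin hε
  · intro p hp φ hφ f hf hfin ε hε
    obtain ⟨M, hM⟩ := exists_nat_ge (8 * (p - 1))
    exact Y285.LL.dense_confV hφ.1 hφ.2 weightProfile_W₀.pos monotoneOn_W₀ M hp hM (W₀_le M) hf
      hfin hε

end Pool.Agent.Results.MP_d321f7_an.OneWeightAllExponents
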